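import Pool.Agent.Lib.H83B.Betti

/-!
# Bounds for the number of Betti elements of a block monoid
-/

set_option autoImplicit false

namespace Pool.Agent.Lib.H83G

open Multiset Pool.Agent.Lib.H83B

section Basic

variable {G : Type*} [AddCommGroup G]

theorem pair_atom {g : G} (hg : g ≠ 0) : BlockAtom ({g, -g} : Multiset G) := by
  refine ⟨by simp, by simp, ?_⟩
  intro b c hb hc hbc
  have h1 : card b + card c = 2 := by
    have := congrArg card hbc
    simpa using this.symm
  have hno : ∀ x ∈ ({g, -g} : Multiset G), x ≠ 0 := by
    intro x hx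
    simp only [insert_eq_cons, mem_cons, mem_singleton] at hx
    rcases hx with h | h
    · rw [h]; exact hg
    · rw [h]; exact neg_ne_zero.2 hg
  have hb1 : card b ≠ 1 := by
    intro h
    obtain ⟨x, rfl⟩ := card_eq_one.1 h
    rw [sum_singleton] at hb
    exact hno x (by rw [hbc]; simp) hb
  rcases Nat.lt_or_ge (card b) 1 with h | h
  · left; exact card_eq_zero.1 (by omega)
  · right; exact card_eq_zero.1 (by omega)

/-- The sequence of the inverse elements. -/
def ng (A : Multiset G) : Multiset G := A.map fun x => -x

theorem ng_ng (A : Multiset G) : ng (ng A) = A := by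
  unfold ng
  rw [map_map]
  simp

theorem ng_add (A B : Multiset G) : ng (A + B) = ng A + ng B := Multiset.map_add _ _ _

theorem ng_sum (A : Multiset G) : (ng A).sum = -A.sum := by
  unfold ng
  rw [Multiset.sum_map_neg, Multiset.map_id']

theorem card_ng (A : Multiset G) : card (ng A) = card A := Multiset.card_map _ _

theorem mem_ng {A : Multiset G} {x : G} : x ∈ ng A ↔ -x ∈ A := by
  unfold ng
  rw [mem_map]
  constructor
  · rintro ⟨a, ha, rfl⟩
    rw [neg_neg]
    exact ha
  · intro h
    exact ⟨-x, h, neg_neg x⟩

theorem ng_atom {A : Multiset G} (hA : BlockAtom A) : BlockAtom (ng A) := by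
  refine ⟨by rw [ng_sum, hA.1, neg_zero], ?_, ?_⟩
  · intro h
    exact hA.2.1 (Multiset.map_eq_zero.1 h)
  · intro b c hb hc hbc
    have h1 : A = ng b + ng c := by rw [← ng_add, ← hbc, ng_ng]
    rcases hA.2.2 _ _ (by rw [ng_sum, hb, neg_zero]) (by rw [ng_sum, hc, neg_zero]) h1 with h | h
    · exact Or.inl (Multiset.map_eq_zero.1 h)
    · exact Or.inr (Multiset.map_eq_zero.1 h)

theorem ne_zero_of_atom {A : Multiset G} (hA : BlockAtom A) (h2 : 2 ≤ card A) {x : G} (hx : x ∈ A) :
    x ≠ 0 := by
  rintro rfl
  obtain ⟨t, ht⟩ := exists_cons_of_mem hx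
  have h1 : A = {0} + t := by rw [ht]; rfl
  have h3 : t.sum = 0 := by
    have := hA.1
    rw [h1, sum_add, sum_singleton, zero_add] at this
    exact this
  rcases hA.2.2 {0} t (sum_singleton _) h3 h1 with h | h
  · exact absurd h (by simp)
  · rw [h1, h] at h2
    simp at h2

/-- For an atom `A` with at least three elements `A * (-A)` is a Betti element. -/
theorem isBetti_ng {A : Multiset G} (hA : BlockAtom A) (h3 : 3 ≤ card A) : IsBetti (A + ng A) := by
  have hsum : ∀ B : Multiset G, (B.map fun g => ({g, -g} : Multiset G)).sum = B + ng B := by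
    intro B
    induction B using Multiset.induction with
    | empty => simp [ng]
    | cons a B ih =>
      rw [map_cons, sum_cons, ih]
      have e1 : ({a, -a} : Multiset G) = {a} + {-a} := rfl
      have e2 : ng (a ::ₘ B) = {-a} + ng B := by
        unfold ng
        rw [map_cons]
        rfl
      have e3 : a ::ₘ B = {a} + B := rfl
      rw [e1, e2, e3]
      abel
  have hz : IsFactorization (A + ng A) (A.map fun g => ({g, -g} : Multiset G)) := by
    refine ⟨?_, hsum A⟩
    intro a ha
    obtain ⟨g, hg, rfl⟩ := mem_map.1 ha
    exact pair_atom (ne_zero_of_atom hA (by omega) hg)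
  refine isBetti_add hA (ng_atom hA) hz ?_
  intro h
  have := congrArg card h
  simp only [card_map, insert_eq_cons, card_cons, card_singleton] at this
  omega

theorem card_le_betti [Finite G] (F : Finset (Multiset G)) (hF : ∀ s ∈ F, IsBetti s) :
    F.card ≤ betti G := by
  unfold betti
  rw [← Set.ncard_coe_finset]
  exact Set.ncard_le_ncard (fun s hs => hF s hs) finite_betti

/-- Upper bound. -/
theorem betti_le [Finite G] : betti G ≤ (2 * Nat.card G + 1) ^ Nat.card G := by
  classical
  have := Fintype.ofFinite G
  set N := Nat.card G with hN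
  let F : Multiset G → (G → Fin (2 * N + 1)) := fun s g =>
    ⟨min (count g s) (2 * N), by omega⟩
  have hinj : Set.InjOn F {s : Multiset G | IsBetti s} := by
    intro s hs t ht hst
    ext g
    have h1 := congrArg Fin.val (congrFun hst g)
    simp only [F] at h1
    have h2 := count_le_of_isBetti hs g
    have h3 := count_le_of_isBetti ht g
    have h4 : addOrderOf g ≤ N := by
      rw [hN, Nat.card_eq_fintype_card]
      exact addOrderOf_le_card_univ
    have h5 : count g s ≤ 2 * N := by omega
    have h6 : count g t ≤ 2 * N := by omega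
    rwa [min_eq_left h5, min_eq_left h6] at h1
  unfold betti
  rw [← Set.ncard_image_of_injOn hinj]
  refine (Set.ncard_le_card _).trans ?_
  rw [Nat.card_eq_fintype_card, Fintype.card_fun, Fintype.card_fin, hN, Nat.card_eq_fintype_card]

end Basic

end Pool.Agent.Lib.H83G
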