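import Pool.Agent.Lib.H83G.A

/-!
# Lower bound from an element of large order
-/

set_option autoImplicit false

namespace Pool.Agent.Lib.H83G

open Multiset Pool.Agent.Lib.H83B

section Order

variable {G : Type*} [AddCommGroup G]

/-- The sequence `g^(n - ∑ T) * ∏_(t ∈ T) (t g)`. -/
def part (g : G) (n : ℕ) (T : Finset ℕ) : Multiset G :=
  (Multiset.replicate (n - ∑ t ∈ T, t) 1 + T.1).map fun t => t • g

theorem sum_map_nsmul' (g : G) (P : Multiset ℕ) : (P.map fun t => t • g).sum = P.sum • g := by
  induction P using Multiset.induction with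
  | empty => simp
  | cons a P ih => rw [map_cons, sum_cons, sum_cons, ih, add_smul]

/-- Sub-sequences of `P.map (· • g)` come from sub-sequences of `P`. -/
theorem exists_le_map {α β : Type*} {f : α → β} {P : Multiset α} {b : Multiset β} (h : b ≤ P.map f) :
    ∃ Q ≤ P, b = Q.map f := by
  classical
  induction P using Multiset.induction generalizing b with
  | empty =>
    rw [map_zero] at h
    exact ⟨0, le_rfl, by rw [Multiset.le_zero.1 h, map_zero]⟩
  | cons a P ih =>
    rw [map_cons] at h
    by_cases ha : f a ∈ b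
    · obtain ⟨b', rfl⟩ := exists_cons_of_mem ha
      obtain ⟨Q, hQ, rfl⟩ := ih ((cons_le_cons_iff _).1 h)
      exact ⟨a ::ₘ Q, cons_le_cons _ hQ, by rw [map_cons]⟩
    · obtain ⟨Q, hQ, rfl⟩ := ih ((le_cons_of_notMem ha).1 h)
      exact ⟨Q, hQ.trans (Multiset.le_cons_self _ _), rfl⟩

/-- Partitions of the order of `g` give atoms. -/
theorem atom_of_partition {g : G} {P : Multiset ℕ} (hP : P.sum = addOrderOf g) (h0 : 0 < addOrderOf g)
    (hpos : ∀ t ∈ P, 0 < t) : BlockAtom (P.map fun t => t • g) := by
  classical
  have hz : ∀ Q : Multiset ℕ, Q ≤ P → (Q.map fun t => t • g).sum = 0 → Q.sum ≠ 0 → Q = P := by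
    intro Q hQ hs hne
    rw [sum_map_nsmul'] at hs
    have h1 : addOrderOf g ∣ Q.sum := addOrderOf_dvd_of_nsmul_eq_zero hs
    obtain ⟨R, rfl⟩ := Multiset.le_iff_exists_add.1 hQ
    have h2 := Nat.le_of_dvd (Nat.pos_of_ne_zero hne) h1
    rw [sum_add] at hP
    have h3 : R.sum = 0 := by omega
    have h4 : R = 0 := by
      by_contra hR
      obtain ⟨t, ht⟩ := exists_mem_of_ne_zero hR
      have h5 := hpos t (mem_add.2 (Or.inr ht))
      have h6 : t ≤ R.sum := Multiset.single_le_sum (fun x _ => Nat.zero_le x) t ht
      omega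
    rw [h4, add_zero]
  refine ⟨?_, ?_, ?_⟩
  · rw [sum_map_nsmul', hP, addOrderOf_nsmul_eq_zero]
  · intro h
    rw [Multiset.map_eq_zero] at h
    rw [h, sum_zero] at hP
    omega
  · intro b c hb hc hbc
    obtain ⟨Q, hQ, rfl⟩ := exists_le_map (f := fun t : ℕ => t • g) (P := P) (b := b)
      (by rw [hbc]; exact Multiset.le_add_right _ _)
    by_cases hQ0 : Q.sum = 0
    · left
      have h4 : Q = 0 := by
        by_contra hR
        obtain ⟨t, ht⟩ := exists_mem_of_ne_zero hR
        have h5 := hpos t (mem_of_le hQ ht)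
        have h6 : t ≤ Q.sum := Multiset.single_le_sum (fun x _ => Nat.zero_le x) t ht
        omega
      rw [h4, map_zero]
    · right
      have h1 := hz Q hQ hb hQ0
      rw [h1] at hbc
      have h2 := congrArg card hbc
      rw [card_add] at h2
      exact card_eq_zero.1 (by omega)

theorem nsmul_inj {g : G} {a b : ℕ} (ha : a < addOrderOf g) (hb : b < addOrderOf g) (h : a • g = b • g) :
    a = b := nsmul_injOn_Iio_addOrderOf ha hb h

/-- Lower bound from an element of large order. -/
theorem pow_le_betti [Finite G] (g : G) (k : ℕ) (hk : 4 ≤ k) (hn : k * (k + 1) ≤ 2 * addOrderOf g) :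
    2 ^ (k - 1) ≤ betti G := by
  classical
  set n := addOrderOf g with hn'
  have hsub : ∀ T ∈ (Finset.Icc 2 k).powerset, (∑ t ∈ T, t) + 1 ≤ n ∧ ∑ t ∈ T, t + 3 ≤ n + T.card := by
    intro T hT
    rw [Finset.mem_powerset] at hT
    have h1 : ∑ t ∈ T, (t - 1) ≤ ∑ t ∈ Finset.Icc 2 k, (t - 1) :=
      Finset.sum_le_sum_of_subset hT
    have h2 : ∀ m : ℕ, ∑ t ∈ Finset.Icc 2 m, (t - 1) = m * (m - 1) / 2 := by
      intro m
      have h3 : ∑ t ∈ Finset.Icc 2 m, (t - 1) = ∑ t ∈ Finset.range m, t := by
        rcases Nat.lt_or_ge m 2 with h | h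
        · interval_cases m <;> simp
        · rw [show Finset.Icc 2 m = (Finset.Icc 1 (m - 1)).image (fun t => t + 1) by
            ext x
            simp only [Finset.mem_image, Finset.mem_Icc]
            constructor
            · intro hx
              exact ⟨x - 1, by omega, by omega⟩
            · rintro ⟨y, hy, rfl⟩
              omega]
          rw [Finset.sum_image (by intro a _ b _ h; simpa using h)]
          simp only [Nat.add_sub_cancel]
          rw [show Finset.range m = insert 0 (Finset.Icc 1 (m - 1)) by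
            ext x
            simp only [Finset.mem_insert, Finset.mem_Icc, Finset.mem_range]
            omega]
          rw [Finset.sum_insert (by simp)]
          simp
      rw [h3, Finset.sum_range_id]
    rw [h2] at h1
    have h4 : ∑ t ∈ T, (t - 1) + T.card = ∑ t ∈ T, t := by
      rw [Finset.card_eq_sum_ones, ← Finset.sum_add_distrib]
      refine Finset.sum_congr rfl fun t ht => ?_
      have := Finset.mem_Icc.1 (hT ht)
      omega
    have h5 : T.card ≤ k - 1 := by
      have := Finset.card_le_card hT
      rw [Nat.card_Icc] at this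
      omega
    have h6 : k * (k - 1) / 2 * 2 ≤ k * (k - 1) := Nat.div_mul_le_self _ _
    obtain ⟨j, rfl⟩ : ∃ j, k = j + 1 := ⟨k - 1, by omega⟩
    simp only [Nat.add_sub_cancel] at h1 h5 h6
    constructor
    · nlinarith
    · nlinarith
  let S : Finset ℕ → Multiset G := fun T => part g n T + ng (part g n T)
  have hle : ∀ T ∈ (Finset.Icc 2 k).powerset, ∀ t, 2 ≤ t → t ≤ k → (t • g ∈ S T ↔ t ∈ T) := by
    intro T hT t ht2 htk
    have hTs := Finset.mem_powerset.1 hT
    have hkn : 2 * k < n := by nlinarith
    have hmem : ∀ x : G, x ∈ part g n T → ∃ u, (u = 1 ∨ u ∈ T) ∧ x = u • g := by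
      intro x hx
      unfold part at hx
      obtain ⟨u, hu, rfl⟩ := mem_map.1 hx
      refine ⟨u, ?_, rfl⟩
      rcases mem_add.1 hu with h | h
      · exact Or.inl (eq_of_mem_replicate h)
      · exact Or.inr h
    constructor
    · intro hx
      rcases mem_add.1 hx with h | h
      · obtain ⟨u, hu, hu'⟩ := hmem _ h
        have huk : u ≤ k := by
          rcases hu with h | h
          · omega
          · exact (Finset.mem_Icc.1 (hTs h)).2
        have := nsmul_inj (g := g) (by omega) (by omega) hu'
        rcases hu with h | h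
        · omega
        · rwa [this]
      · rw [mem_ng] at h
        obtain ⟨u, hu, hu'⟩ := hmem _ h
        have huk : u ≤ k := by
          rcases hu with h | h
          · omega
          · exact (Finset.mem_Icc.1 (hTs h)).2
        exfalso
        have h1 : (t + u) • g = 0 := by
          rw [add_smul, ← hu']
          abel
        have h2 := Nat.le_of_dvd (by omega) (addOrderOf_dvd_of_nsmul_eq_zero h1)
        omega
    · intro h
      refine mem_add.2 (Or.inl ?_)
      unfold part
      exact mem_map.2 ⟨t, mem_add.2 (Or.inr h), rfl⟩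
  have hinj : Set.InjOn S ((Finset.Icc 2 k).powerset : Set (Finset ℕ)) := by
    intro T hT T' hT' h
    have h1 := Finset.mem_powerset.1 hT
    have h2 := Finset.mem_powerset.1 hT'
    ext t
    constructor
    · intro ht
      have h3 := Finset.mem_Icc.1 (h1 ht)
      have h4 := (hle T hT t h3.1 h3.2).2 ht
      rw [h] at h4
      exact (hle T' hT' t h3.1 h3.2).1 h4
    · intro ht
      have h3 := Finset.mem_Icc.1 (h2 ht)
      have h4 := (hle T' hT' t h3.1 h3.2).2 ht
      rw [← h] at h4
      exact (hle T hT t h3.1 h3.2).1 h4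
  have hcard : (((Finset.Icc 2 k).powerset).image S).card = 2 ^ (k - 1) := by
    rw [Finset.card_image_of_injOn hinj, Finset.card_powerset, Nat.card_Icc]
    congr 1
  rw [← hcard]
  refine card_le_betti _ fun s hs => ?_
  obtain ⟨T, hT, rfl⟩ := Finset.mem_image.1 hs
  obtain ⟨h1, h2⟩ := hsub T hT
  have hTs := Finset.mem_powerset.1 hT
  refine isBetti_ng ?_ ?_
  · unfold part
    refine atom_of_partition ?_ (by omega) ?_
    · rw [sum_add, sum_replicate]
      have : T.1.sum = ∑ t ∈ T, t := by rw [Finset.sum_eq_multiset_sum, Multiset.map_id']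
      rw [this, smul_eq_mul, mul_one]
      omega
    · intro t ht
      rcases mem_add.1 ht with h | h
      · rw [eq_of_mem_replicate h]
        exact one_pos
      · have := (Finset.mem_Icc.1 (hTs h)).1
        omega
  · unfold part
    rw [card_map, card_add, card_replicate]
    have : card T.1 = T.card := rfl
    rw [this]
    omega

end Order

end Pool.Agent.Lib.H83G
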