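import Pool.Agent.Lib.H83G.A

/-!
# Lower bound for all finite abelian groups, from zero-sum free sequences
-/

set_option autoImplicit false

namespace Pool.Agent.Lib.H83G

open Multiset Pool.Agent.Lib.H83B

section Free

variable {G : Type*} [AddCommGroup G]

/-- `s` is zero-sum free. -/
def Zsf (s : Multiset G) : Prop := ∀ t ≤ s, t.sum = 0 → t = 0

theorem zsf_zero : Zsf (0 : Multiset G) := fun t ht _ => Multiset.le_zero.1 ht

/-- The elements which may not be appended. -/
noncomputable def bad [DecidableEq G] (s : Multiset G) : Finset G :=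
  ((powerset s).map fun t => -t.sum).toFinset

theorem card_bad [DecidableEq G] (s : Multiset G) : (bad s).card ≤ 2 ^ card s := by
  unfold bad
  refine (Multiset.toFinset_card_le _).trans ?_
  rw [card_map, card_powerset]

theorem zsf_cons [DecidableEq G] {s : Multiset G} (hs : Zsf s) {y : G} (hy : y ∉ bad s) :
    Zsf (y ::ₘ s) := by
  intro t ht h0
  by_cases hyt : y ∈ t
  · obtain ⟨t', rfl⟩ := exists_cons_of_mem hyt
    exfalso
    apply hy
    unfold bad
    rw [mem_toFinset, mem_map]
    refine ⟨t', mem_powerset.2 ((cons_le_cons_iff y).1 ht), ?_⟩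
    rw [sum_cons] at h0
    exact (eq_neg_of_add_eq_zero_left h0).symm
  · exact hs t ((le_cons_of_notMem hyt).1 ht) h0

/-- The ordered zero-sum free sequences of length `j` (a subset of them). -/
noncomputable def seqs [Fintype G] [DecidableEq G] : ℕ → Finset (List G)
  | 0 => {[]}
  | j + 1 => ((seqs j).sigma fun l => Finset.univ \ bad (l : Multiset G)).image fun x => x.2 :: x.1

theorem seqs_prop [Fintype G] [DecidableEq G] : ∀ (j : ℕ) (l : List G), l ∈ seqs j →
    l.length = j ∧ Zsf (l : Multiset G) := by
  intro j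
  induction j with
  | zero =>
    intro l hl
    have : l = [] := by simpa [seqs] using hl
    subst this
    exact ⟨rfl, zsf_zero⟩
  | succ j ih =>
    intro l hl
    unfold seqs at hl
    obtain ⟨⟨l', y⟩, h, rfl⟩ := Finset.mem_image.1 hl
    rw [Finset.mem_sigma] at h
    obtain ⟨h1, h2⟩ := ih l' h.1
    refine ⟨by simp [h1], ?_⟩
    rw [← Multiset.cons_coe]
    exact zsf_cons h2 (Finset.mem_sdiff.1 h.2).2

theorem card_seqs [Fintype G] [DecidableEq G] : ∀ j : ℕ, 2 ^ j ≤ Fintype.card G →
    Fintype.card G ^ j ≤ 2 ^ j * (seqs (G := G) j).card := by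
  intro j
  induction j with
  | zero => intro _; simp [seqs]
  | succ j ih =>
    intro hj
    have hj' : 2 ^ j ≤ Fintype.card G := le_trans (Nat.pow_le_pow_right (by norm_num) (Nat.le_succ j)) hj
    have h0 := ih hj'
    have h1 : (seqs (G := G) (j + 1)).card =
        ∑ l ∈ seqs (G := G) j, (Finset.univ \ bad (l : Multiset G)).card := by
      rw [show seqs (G := G) (j + 1) = ((seqs j).sigma fun l => Finset.univ \ bad (l : Multiset G)).image
        fun x => x.2 :: x.1 from rfl, Finset.card_image_of_injective, Finset.card_sigma]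
      rintro ⟨a, x⟩ ⟨b, y⟩ h
      simp only [List.cons.injEq] at h
      obtain ⟨h1, h2⟩ := h
      subst h1
      subst h2
      rfl
    have h2 : ∀ l ∈ seqs (G := G) j, Fintype.card G ≤ 2 * (Finset.univ \ bad (l : Multiset G)).card := by
      intro l hl
      have h3 := card_bad (l : Multiset G)
      rw [coe_card, (seqs_prop j l hl).1] at h3
      have h4 : (Finset.univ \ bad (l : Multiset G)).card + (bad (l : Multiset G)).card = Fintype.card G := by
        rw [Finset.card_sdiff_add_card_eq_card (Finset.subset_univ _), Finset.card_univ]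
      rw [pow_succ] at hj
      omega
    have h3 : Fintype.card G * (seqs (G := G) j).card ≤ 2 * (seqs (G := G) (j + 1)).card := by
      rw [h1, Finset.mul_sum, mul_comm, ← smul_eq_mul, ← Finset.sum_const]
      exact Finset.sum_le_sum h2
    calc Fintype.card G ^ (j + 1) = Fintype.card G * Fintype.card G ^ j := by rw [pow_succ, mul_comm]
      _ ≤ Fintype.card G * (2 ^ j * (seqs (G := G) j).card) := Nat.mul_le_mul_left _ h0
      _ = 2 ^ j * (Fintype.card G * (seqs (G := G) j).card) := by ring
      _ ≤ 2 ^ j * (2 * (seqs (G := G) (j + 1)).card) := Nat.mul_le_mul_left _ h3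
      _ = 2 ^ (j + 1) * (seqs (G := G) (j + 1)).card := by ring

/-- A zero-sum free sequence is completed to an atom. -/
theorem atom_of_zsf {s : Multiset G} (hs : Zsf s) : BlockAtom ((-s.sum) ::ₘ s) := by
  refine ⟨by rw [sum_cons, neg_add_cancel], by simp, ?_⟩
  have key : ∀ b c : Multiset G, c.sum = 0 → (-s.sum) ::ₘ s = b + c → -s.sum ∈ b → c = 0 := by
    intro b c hc hbc hb
    obtain ⟨b', rfl⟩ := exists_cons_of_mem hb
    rw [cons_add, cons_inj_right] at hbc
    exact hs c (by rw [hbc]; exact Multiset.le_add_left _ _) hc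
  intro b c hb hc hbc
  have h1 : -s.sum ∈ b + c := by rw [← hbc]; exact mem_cons_self _ _
  rcases mem_add.1 h1 with h | h
  · exact Or.inr (key b c hc hbc h)
  · exact Or.inl (key c b hb (by rw [hbc, add_comm]) h)

/-- The lists of length `j` with entries in a finite set. -/
theorem card_lists [DecidableEq G] (S : Finset G) (j : ℕ) (F : Finset (List G))
    (hF : ∀ l ∈ F, l.length = j ∧ ∀ x ∈ l, x ∈ S) : F.card ≤ S.card ^ j := by
  classical
  let f : List G → (Fin j → G) := fun l i => l.getD i 0
  have hinj : Set.InjOn f (F : Set (List G)) := by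
    intro a ha b hb hab
    obtain ⟨h1, -⟩ := hF a ha
    obtain ⟨h2, -⟩ := hF b hb
    apply List.ext_getElem (by rw [h1, h2])
    intro i hi hi'
    have h3 := congrFun hab ⟨i, by omega⟩
    simp only [f] at h3
    rw [List.getD_eq_getElem _ _ hi, List.getD_eq_getElem _ _ hi'] at h3
    exact h3
  have hsub : F.image f ⊆ Fintype.piFinset fun _ : Fin j => S := by
    intro x hx
    obtain ⟨l, hl, rfl⟩ := Finset.mem_image.1 hx
    rw [Fintype.mem_piFinset]
    intro i
    obtain ⟨h1, h2⟩ := hF l hl
    have hi : (i : ℕ) < l.length := by omega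
    simp only [f]
    rw [List.getD_eq_getElem _ _ hi]
    exact h2 _ (List.getElem_mem hi)
  rw [← Finset.card_image_of_injOn hinj]
  refine (Finset.card_le_card hsub).trans ?_
  rw [Fintype.card_piFinset]
  simp

/-- Lower bound for all finite abelian groups. -/
theorem card_pow_le_betti [Finite G] (j : ℕ) (h2 : 2 ≤ j) (hj : 2 ^ j ≤ Nat.card G) :
    Nat.card G ^ j ≤ (4 * (j + 1)) ^ j * betti G := by
  classical
  have := Fintype.ofFinite G
  rw [Nat.card_eq_fintype_card] at hj ⊢
  have h1 := card_seqs (G := G) j hj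
  let S : List G → Multiset G := fun l =>
    ((-(l : Multiset G).sum) ::ₘ (l : Multiset G)) + ng ((-(l : Multiset G).sum) ::ₘ (l : Multiset G))
  have hcard : ∀ l ∈ seqs (G := G) j, card (S l) = 2 * (j + 1) := by
    intro l hl
    simp only [S, card_add, card_ng, card_cons, coe_card, (seqs_prop j l hl).1]
    ring
  have h3 : (seqs (G := G) j).card ≤ (2 * (j + 1)) ^ j * ((seqs (G := G) j).image S).card := by
    refine Finset.card_le_mul_card_image _ _ fun s hs => ?_
    obtain ⟨l₀, hl₀, rfl⟩ := Finset.mem_image.1 hs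
    refine (card_lists (S l₀).toFinset j _ fun l hl => ?_).trans ?_
    · rw [Finset.mem_filter] at hl
      refine ⟨(seqs_prop j l hl.1).1, fun x hx => ?_⟩
      rw [mem_toFinset, ← hl.2]
      simp only [S]
      exact mem_add.2 (Or.inl (mem_cons_of_mem (mem_coe.2 hx)))
    · exact Nat.pow_le_pow_left ((Multiset.toFinset_card_le _).trans (hcard l₀ hl₀).le) j
  have h4 : ((seqs (G := G) j).image S).card ≤ betti G := by
    refine card_le_betti _ fun s hs => ?_
    obtain ⟨l, hl, rfl⟩ := Finset.mem_image.1 hs
    obtain ⟨h5, h6⟩ := seqs_prop j l hl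
    refine isBetti_ng (atom_of_zsf h6) ?_
    rw [card_cons, coe_card, h5]
    omega
  calc Fintype.card G ^ j ≤ 2 ^ j * (seqs (G := G) j).card := h1
    _ ≤ 2 ^ j * ((2 * (j + 1)) ^ j * betti G) :=
        Nat.mul_le_mul_left _ (h3.trans (Nat.mul_le_mul_left _ h4))
    _ = (4 * (j + 1)) ^ j * betti G := by
        rw [← mul_assoc, ← mul_pow]
        congr 2
        ring

end Free

end Pool.Agent.Lib.H83G
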