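import Pool.Agent.Lib.H83G.B
import Pool.Agent.Lib.H83G.C

/-!
# Explicit comparison
-/

set_option autoImplicit false

namespace Pool.Agent.Lib.H83G

open Pool.Agent.Lib.H83B

/-- `L m = m * log_2 (2 m + 1)`. -/
noncomputable def L (m : ℕ) : ℝ := m * Real.logb 2 (2 * m + 1)

theorem one_lt_L {m : ℕ} (hm : 1 ≤ m) : 1 < L m := by
  have h1 : (1 : ℝ) ≤ m := by exact_mod_cast hm
  have h2 : (1 : ℝ) < Real.logb 2 (2 * m + 1) := by
    rw [Real.lt_logb_iff_rpow_lt (by norm_num) (by linarith), Real.rpow_one]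
    linarith
  unfold L
  nlinarith

theorem two_rpow_L (m : ℕ) : (2 : ℝ) ^ L m = (2 * (m : ℝ) + 1) ^ m := by
  unfold L
  rw [mul_comm, Real.rpow_mul (by norm_num), Real.rpow_logb (by norm_num) (by norm_num) (by positivity),
    Real.rpow_natCast]

theorem betti_le_rpow {H : Type*} [AddCommGroup H] [Finite H] :
    (betti H : ℝ) ≤ (2 : ℝ) ^ L (Nat.card H) := by
  rw [two_rpow_L]
  exact_mod_cast betti_le (G := H)

variable {G H : Type*} [AddCommGroup G] [AddCommGroup H] [Finite G] [Finite H]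

/-- An element of large order in `G`. -/
theorem betti_lt_of_order (g : G) (h : (L (Nat.card H) + 3) ^ 2 ≤ (addOrderOf g : ℝ)) :
    betti H < betti G := by
  set m := Nat.card H with hm
  have hm1 : 1 ≤ m := Nat.card_pos
  have hL := one_lt_L hm1
  set k := ⌊L m⌋₊ + 3 with hk
  have hf1 : 1 ≤ ⌊L m⌋₊ := Nat.le_floor (by push_cast; exact hL.le)
  have hf2 : L m < ⌊L m⌋₊ + 1 := Nat.lt_floor_add_one _
  have hf3 : (⌊L m⌋₊ : ℝ) ≤ L m := Nat.floor_le (by linarith)
  have hkr : (k : ℝ) ≤ L m + 3 := by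
    rw [hk]
    push_cast
    linarith
  have h1 : k * (k + 1) ≤ 2 * addOrderOf g := by
    have : (k : ℝ) * (k + 1) ≤ 2 * (addOrderOf g : ℝ) := by
      have hk0 : (0 : ℝ) ≤ k := by positivity
      nlinarith
    exact_mod_cast this
  have h2 := pow_le_betti g k (by omega) h1
  have h3 : (betti H : ℝ) < betti G := by
    calc (betti H : ℝ) ≤ (2 : ℝ) ^ L m := betti_le_rpow
      _ < (2 : ℝ) ^ ((k - 1 : ℕ) : ℝ) := by
          apply Real.rpow_lt_rpow_of_exponent_lt (by norm_num)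
          rw [hk, show ⌊L m⌋₊ + 3 - 1 = ⌊L m⌋₊ + 2 from rfl]
          push_cast
          linarith
      _ = ((2 ^ (k - 1) : ℕ) : ℝ) := by
          rw [Real.rpow_natCast]
          push_cast
          rfl
      _ ≤ betti G := by exact_mod_cast h2
  exact_mod_cast h3

theorem sixteen (j : ℕ) (hj : 12 ≤ j) : (4 * (j + 1)) ^ 2 ≤ 2 ^ j := by
  induction j, hj using Nat.le_induction with
  | base => norm_num
  | succ j hj ih =>
    rw [pow_succ 2 j]
    nlinarith

/-- Large order of `G`. -/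
theorem betti_lt_of_card (h : (2 : ℝ) ^ (Real.sqrt (2 * L (Nat.card H)) + 12) ≤ (Nat.card G : ℝ)) :
    betti H < betti G := by
  set m := Nat.card H with hm
  have hm1 : 1 ≤ m := Nat.card_pos
  have hL := one_lt_L hm1
  set N := Nat.card G with hN
  have hN0 : N ≠ 0 := Nat.card_pos.ne'
  set j := Nat.log 2 N with hj
  have h1 : 2 ^ j ≤ N := Nat.pow_log_le_self 2 hN0
  have h2 : N < 2 ^ (j + 1) := Nat.lt_pow_succ_log_self (by norm_num) N
  have h3 : Real.sqrt (2 * L m) + 12 < (j : ℝ) + 1 := by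
    have h4 : (2 : ℝ) ^ (Real.sqrt (2 * L m) + 12) < (2 : ℝ) ^ ((j : ℝ) + 1) := by
      refine h.trans_lt ?_
      have : (N : ℝ) < (2 : ℝ) ^ (j + 1) := by exact_mod_cast h2
      rw [show (j : ℝ) + 1 = ((j + 1 : ℕ) : ℝ) by push_cast; rfl, Real.rpow_natCast]
      exact this
    exact (Real.rpow_lt_rpow_left_iff (by norm_num)).1 h4
  have hs0 : 0 ≤ Real.sqrt (2 * L m) := Real.sqrt_nonneg _
  have hj12 : 12 ≤ j := by
    have : (11 : ℝ) < j := by linarith
    exact_mod_cast this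
  have hj2 : 2 * L m < (j : ℝ) ^ 2 := by
    have h4 : Real.sqrt (2 * L m) < j := by linarith
    have h5 : Real.sqrt (2 * L m) ^ 2 = 2 * L m := Real.sq_sqrt (by linarith)
    rw [← h5]
    exact pow_lt_pow_left₀ h4 hs0 (by norm_num)
  have h5 := card_pow_le_betti (G := G) j (by omega) h1
  have h6 : 2 ^ (j * j) ≤ betti G ^ 2 := by
    have h7 : (2 ^ j) ^ (2 * j) ≤ (2 ^ j) ^ j * betti G ^ 2 := by
      calc (2 ^ j) ^ (2 * j) ≤ N ^ (2 * j) := Nat.pow_le_pow_left h1 _
        _ = (N ^ j) ^ 2 := by rw [← pow_mul, mul_comm 2 j]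
        _ ≤ ((4 * (j + 1)) ^ j * betti G) ^ 2 := Nat.pow_le_pow_left h5 2
        _ = ((4 * (j + 1)) ^ 2) ^ j * betti G ^ 2 := by
            rw [mul_pow, ← pow_mul, ← pow_mul, mul_comm j 2]
        _ ≤ (2 ^ j) ^ j * betti G ^ 2 :=
            Nat.mul_le_mul_right _ (Nat.pow_le_pow_left (sixteen j hj12) j)
    have h8 : (2 ^ j) ^ (2 * j) = (2 ^ j) ^ j * 2 ^ (j * j) := by
      rw [two_mul, pow_add, ← pow_mul]
    rw [h8] at h7
    exact Nat.le_of_mul_le_mul_left h7 (by positivity)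
  have h9 : (betti H : ℝ) ^ 2 < (betti G : ℝ) ^ 2 := by
    calc (betti H : ℝ) ^ 2 ≤ ((2 : ℝ) ^ L m) ^ 2 := pow_le_pow_left₀ (by positivity) betti_le_rpow 2
      _ = (2 : ℝ) ^ (2 * L m) := by
          rw [← Real.rpow_natCast, ← Real.rpow_mul (by norm_num)]
          congr 1
          push_cast
          ring
      _ < (2 : ℝ) ^ ((j : ℝ) ^ 2) := Real.rpow_lt_rpow_of_exponent_lt (by norm_num) hj2
      _ = ((2 ^ (j * j) : ℕ) : ℝ) := by
          rw [show (j : ℝ) ^ 2 = ((j * j : ℕ) : ℝ) by push_cast; ring, Real.rpow_natCast]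
          push_cast
          rfl
      _ ≤ (betti G : ℝ) ^ 2 := by exact_mod_cast h6
  have h10 : (betti H : ℝ) < betti G := lt_of_pow_lt_pow_left₀ 2 (by positivity) h9
  exact_mod_cast h10

end Pool.Agent.Lib.H83G
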