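import Pool.Agent.Lib.H83G.C

/-! # H83G, chunk E1: the structure of Betti elements -/

set_option autoImplicit false

namespace Pool.Agent.Lib.H83G

open Multiset Pool.Agent.Lib.H83B

variable {G : Type*} [AddCommGroup G]

private theorem e1_two {s X U : Multiset G} (hs : s.sum = 0) (hX : BlockAtom X) (hU : BlockAtom U)
    (hle : X + U ≤ s) : ∃ y, IsFactorization s y ∧ X ∈ y ∧ U ∈ y := by
  obtain ⟨r, hr⟩ := Multiset.le_iff_exists_add.1 hle
  have hr0 : r.sum = 0 := by
    rw [hr, sum_add, sum_add, hX.1, hU.1, zero_add, zero_add] at hs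
    exact hs
  obtain ⟨y, hy1, hy2⟩ := exists_factorization r hr0
  refine ⟨X ::ₘ U ::ₘ y, ⟨?_, ?_⟩, mem_cons_self _ _, mem_cons_of_mem (mem_cons_self _ _)⟩
  · intro a ha
    rcases mem_cons.1 ha with h | h
    · rw [h]; exact hX
    · rcases mem_cons.1 h with h | h
      · rw [h]; exact hU
      · exact hy1 a h
  · rw [sum_cons, sum_cons, hy2, hr, add_assoc]

private theorem e1_ne {s : Multiset G} {z : Multiset (Multiset G)} (hz : IsFactorization s z)
    (h : s ≠ 0) : ∃ U, U ∈ z := by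
  apply exists_mem_of_ne_zero
  rintro rfl
  exact h (by rw [← hz.2, sum_zero])

private theorem e1_zero {s : Multiset G} {z : Multiset (Multiset G)} (hz : IsFactorization s z)
    (hs : s = 0) : z = 0 := by
  subst hs
  by_contra hne
  obtain ⟨a, ha⟩ := exists_mem_of_ne_zero hne
  exact (hz.1 a ha).2.1 (Multiset.le_zero.1 (le_of_mem_factorization hz ha))

/-- PROOF: `isBetti_iff` gives factorizations `z`, `w` which are not connected. Neither is `0` (if `z = 0` then `s = 0`, and then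
`w = 0`, because an atom is not `0`; so `z = w`). Choose `U ∈ z`, `V ∈ w`; `U, V ≤ s` (`le_of_mem_factorization`), so
`U ∪ V ≤ s`; `F = s - (U ∪ V)`. Let `t ≤ F` with sum zero, `t ≠ 0`; a factorization of `t` contains an atom `X ≤ t`. Then
`X + U ≤ s` and `X + V ≤ s`, so (`exists_factorization` of the rest) there are factorizations `y1` of `s` with `X, U ∈ y1` and `y2`
with `X, V ∈ y2`; `z`, `y1`, `y2`, `w` are connected by `reach_of_share`. Contradiction. -/
theorem exists_sup [DecidableEq G] {s : Multiset G} (hs : IsBetti s) :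
    ∃ U V F : Multiset G, BlockAtom U ∧ BlockAtom V ∧ Zsf F ∧ s = (U ∪ V) + F := by
  obtain ⟨hs0, z, w, hzw⟩ := isBetti_iff.1 hs
  have hne : s ≠ 0 := by
    intro h
    apply hzw
    have h1 : z = w := by
      apply Subtype.ext
      rw [e1_zero z.2 h, e1_zero w.2 h]
    rw [h1]
  obtain ⟨U, hU⟩ := e1_ne z.2 hne
  obtain ⟨V, hV⟩ := e1_ne w.2 hne
  have hUa : BlockAtom U := z.2.1 U hU
  have hVa : BlockAtom V := w.2.1 V hV
  have hUs : U ≤ s := le_of_mem_factorization z.2 hU
  have hVs : V ≤ s := le_of_mem_factorization w.2 hV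
  have hle : U ∪ V ≤ s := Multiset.union_le hUs hVs
  have hsF : s = (U ∪ V) + (s - (U ∪ V)) := (add_tsub_cancel_of_le hle).symm
  refine ⟨U, V, s - (U ∪ V), hUa, hVa, ?_, hsF⟩
  intro t ht ht0
  by_contra htne
  obtain ⟨y, hy⟩ := exists_factorization t ht0
  obtain ⟨X, hX⟩ := e1_ne hy htne
  have hXa : BlockAtom X := hy.1 X hX
  have hXF : X ≤ s - (U ∪ V) := (le_of_mem_factorization hy hX).trans ht
  have hXU : X + U ≤ s := by
    rw [hsF, add_comm]
    exact add_le_add (Multiset.le_union_left (s := U) (t := V)) hXF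
  have hXV : X + V ≤ s := by
    rw [hsF, add_comm]
    exact add_le_add (Multiset.le_union_right (s := U) (t := V)) hXF
  obtain ⟨y1, hy1, hX1, hU1⟩ := e1_two hs0 hXa hUa hXU
  obtain ⟨y2, hy2, hX2, hV2⟩ := e1_two hs0 hXa hVa hXV
  apply hzw
  exact ((reach_of_share z ⟨y1, hy1⟩ ⟨U, hU, hU1⟩).trans
    (reach_of_share ⟨y1, hy1⟩ ⟨y2, hy2⟩ ⟨X, hX1, hX2⟩)).trans
    (reach_of_share ⟨y2, hy2⟩ w ⟨V, hV2, hV⟩)

end Pool.Agent.Lib.H83G
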