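import Mathlib

/-! # H83G, chunk E2: counting multisets with small support -/

set_option autoImplicit false

namespace Pool.Agent.Lib.H83G

open Multiset

private theorem exists_list {G : Type*} [DecidableEq G] [Nonempty G] (N K : ℕ) :
    ∀ s : Multiset G, s.toFinset.card ≤ K → (∀ g, count g s ≤ N) →
      ∃ f : Fin K → G × Fin (N + 1), ∑ i, replicate ((f i).2 : ℕ) (f i).1 = s := by
  induction K with
  | zero =>
    intro s hs _
    have h0 : s = 0 := by
      rw [Nat.le_zero, Finset.card_eq_zero, Multiset.toFinset_eq_empty] at hs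
      exact hs
    exact ⟨fun i => i.elim0, by rw [h0]; simp⟩
  | succ K ih =>
    intro s hs hc
    by_cases h0 : s = 0
    · obtain ⟨g0⟩ := ‹Nonempty G›
      exact ⟨fun _ => (g0, 0), by rw [h0]; simp⟩
    · obtain ⟨g, hg⟩ := Multiset.exists_mem_of_ne_zero h0
      obtain ⟨f, hf⟩ := ih (s.filter (· ≠ g)) (by
          have h1 : (s.filter (· ≠ g)).toFinset ⊆ s.toFinset.erase g := by
            intro x hx
            rw [Multiset.mem_toFinset, Multiset.mem_filter] at hx
            exact Finset.mem_erase.2 ⟨hx.2, Multiset.mem_toFinset.2 hx.1⟩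
          have h2 := Finset.card_le_card h1
          rw [Finset.card_erase_of_mem (Multiset.mem_toFinset.2 hg)] at h2
          omega)
        (fun x => (Multiset.count_le_of_le x (Multiset.filter_le _ s)).trans (hc x))
      refine ⟨Fin.cons (g, ⟨count g s, Nat.lt_succ_of_le (hc g)⟩) f, ?_⟩
      rw [Fin.sum_univ_succ]
      simp only [Fin.cons_zero, Fin.cons_succ]
      rw [hf]
      have h3 : replicate (count g s) g = s.filter (g = ·) := (Multiset.filter_eq s g).symm
      have h4 : s.filter (· ≠ g) = s.filter (fun x => ¬ g = x) :=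
        Multiset.filter_congr fun x _ => ⟨fun h h' => h h'.symm, fun h h' => h h'.symm⟩
      rw [h3, h4]
      exact Multiset.filter_add_not _ _

/-- PROOF: a multiset with at most `K` different elements and multiplicities at most `N` is `∑ i : Fin K, replicate (f i).2 (f i).1` for
a function `f : Fin K → G × Fin (N + 1)` (list the support, fill up with multiplicity `0`; `G` is nonempty). So `F` is contained in the
image of the functions. (`Finset.card_le_card_of_surjOn` or `Finset.card_image_le`.) -/
theorem card_small {G : Type*} [Fintype G] [DecidableEq G] [Nonempty G] (N K : ℕ) (F : Finset (Multiset G))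
    (hF : ∀ s ∈ F, s.toFinset.card ≤ K ∧ ∀ g, count g s ≤ N) :
    F.card ≤ (Fintype.card G * (N + 1)) ^ K := by
  have h1 : F ⊆ (Finset.univ : Finset (Fin K → G × Fin (N + 1))).image
      (fun f => ∑ i, replicate ((f i).2 : ℕ) (f i).1) := by
    intro s hs
    obtain ⟨f, hf⟩ := exists_list N K s (hF s hs).1 (hF s hs).2
    exact Finset.mem_image.2 ⟨f, Finset.mem_univ f, hf⟩
  refine (Finset.card_le_card h1).trans (Finset.card_image_le.trans ?_)
  simp [Finset.card_univ]

end Pool.Agent.Lib.H83G
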