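import Pool.Agent.Lib.H83G.E1
import Pool.Agent.Lib.H83G.E2

/-! # H83G, chunk E3: upper bound from the size of the supports -/

set_option autoImplicit false

namespace Pool.Agent.Lib.H83G

open Multiset Pool.Agent.Lib.H83B

variable {G : Type*} [AddCommGroup G]

/-- PROOF: if `count g F > N ≥ addOrderOf g` then `replicate (addOrderOf g) g ≤ F` has sum zero. -/
theorem count_le_of_zsf [Finite G] [DecidableEq G] {F : Multiset G} (hF : Zsf F) (g : G) :
    count g F ≤ Nat.card G := by
  by_contra hcon
  have h1 : addOrderOf g ≤ Nat.card G := addOrderOf_le_card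
  have h2 : replicate (addOrderOf g) g ≤ F := le_count_iff_replicate_le.1 (by omega)
  have h3 : (replicate (addOrderOf g) g).sum = 0 := by
    rw [sum_replicate, addOrderOf_nsmul_eq_zero]
  have h4 := congrArg card (hF _ h2 h3)
  rw [card_replicate, card_zero] at h4
  have h5 : 0 < addOrderOf g := addOrderOf_pos g
  omega

/-- PROOF: `U ≠ 0`; `U = x ::ₘ F`; if `t ≤ F` has sum zero then `U = t + (U - t)` with both sums zero and `U - t ≠ 0` (it contains `x`
in the sense of cardinality: `card t ≤ card F < card U`), so `t = 0`. -/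
theorem atom_eq_cons {U : Multiset G} (hU : BlockAtom U) : ∃ (x : G) (F : Multiset G), Zsf F ∧ U = x ::ₘ F := by
  obtain ⟨x, hx⟩ := exists_mem_of_ne_zero hU.2.1
  obtain ⟨F, hF⟩ := exists_cons_of_mem hx
  refine ⟨x, F, ?_, hF⟩
  intro t ht hts
  obtain ⟨u, hu⟩ := Multiset.le_iff_exists_add.1 ht
  have h1 : U = t + (x ::ₘ u) := by
    rw [hF, hu, add_cons]
  have h2 : (x ::ₘ u).sum = 0 := by
    have h3 := hU.1
    rw [h1, sum_add, hts, zero_add] at h3
    exact h3
  rcases hU.2.2 t (x ::ₘ u) hts h2 h1 with h | h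
  · exact h
  · exact absurd h (cons_ne_zero)

/-- PROOF: let `P K` be the set of the multisets with at most `K` different elements and multiplicities at most `N + 1`. `E1`: every
Betti element is `(U ∪ V) + F`, `U, V ∈ P (K + 1)` (`atom_eq_cons`, `count_le_of_zsf`), `F ∈ P K`. So the (finite, `finite_betti`) set
of Betti elements is contained in the image of `P (K + 1) × P (K + 1) × P K`; use `card_small` with `N + 1` for finsets: e.g. take
`A` = the finset of all `U`, `V` (chosen for the Betti elements), `C` = the finset of all `F`. -/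
theorem betti_le_of_support [Finite G] [DecidableEq G] (K : ℕ)
    (hK : ∀ F : Multiset G, Zsf F → F.toFinset.card ≤ K) :
    betti G ≤ (Nat.card G * (Nat.card G + 2)) ^ (3 * K + 2) := by
  classical
  have := Fintype.ofFinite G
  have hne : Nonempty G := ⟨0⟩
  have hatom : ∀ U : Multiset G, BlockAtom U →
      U.toFinset.card ≤ K + 1 ∧ ∀ g, count g U ≤ Nat.card G + 1 := by
    intro U hU
    obtain ⟨x, F, hF, rfl⟩ := atom_eq_cons hU
    refine ⟨?_, fun g => ?_⟩
    · rw [toFinset_cons]
      exact (Finset.card_insert_le _ _).trans (Nat.succ_le_succ (hK F hF))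
    · rw [count_cons]
      have := count_le_of_zsf hF g
      split_ifs <;> omega
  choose! U V F hU hV hF hs using fun (s : Multiset G) (hs : IsBetti s) => exists_sup hs
  let B : Finset (Multiset G) := (finite_betti (G := G)).toFinset
  have hB : ∀ s ∈ B, IsBetti s := fun s hs => (finite_betti (G := G)).mem_toFinset.1 hs
  let A1 := B.image U
  let A2 := B.image V
  let A3 := B.image F
  have h1 : A1.card ≤ (Fintype.card G * (Nat.card G + 1 + 1)) ^ (K + 1) := by
    refine card_small (Nat.card G + 1) (K + 1) A1 (fun s hs => ?_)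
    obtain ⟨t, ht, rfl⟩ := Finset.mem_image.1 hs
    exact hatom _ (hU t (hB t ht))
  have h2 : A2.card ≤ (Fintype.card G * (Nat.card G + 1 + 1)) ^ (K + 1) := by
    refine card_small (Nat.card G + 1) (K + 1) A2 (fun s hs => ?_)
    obtain ⟨t, ht, rfl⟩ := Finset.mem_image.1 hs
    exact hatom _ (hV t (hB t ht))
  have h3 : A3.card ≤ (Fintype.card G * (Nat.card G + 1 + 1)) ^ K := by
    refine card_small (Nat.card G + 1) K A3 (fun s hs => ?_)
    obtain ⟨t, ht, rfl⟩ := Finset.mem_image.1 hs
    refine ⟨hK _ (hF t (hB t ht)), fun g => ?_⟩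
    exact (count_le_of_zsf (hF t (hB t ht)) g).trans (Nat.le_succ _)
  have hsub : B ⊆ (A1 ×ˢ A2 ×ˢ A3).image (fun p => (p.1 ∪ p.2.1) + p.2.2) := by
    intro s hsB
    refine Finset.mem_image.2 ⟨(U s, V s, F s), ?_, (hs s (hB s hsB)).symm⟩
    exact Finset.mem_product.2 ⟨Finset.mem_image_of_mem _ hsB,
      Finset.mem_product.2 ⟨Finset.mem_image_of_mem _ hsB, Finset.mem_image_of_mem _ hsB⟩⟩
  have hcard : betti G = B.card := by
    unfold betti
    exact Set.ncard_eq_toFinset_card _ _
  rw [hcard]
  calc B.card ≤ ((A1 ×ˢ A2 ×ˢ A3).image (fun p => (p.1 ∪ p.2.1) + p.2.2)).card := Finset.card_le_card hsub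
    _ ≤ (A1 ×ˢ A2 ×ˢ A3).card := Finset.card_image_le
    _ = A1.card * (A2.card * A3.card) := by rw [Finset.card_product, Finset.card_product]
    _ ≤ (Fintype.card G * (Nat.card G + 1 + 1)) ^ (K + 1) * ((Fintype.card G * (Nat.card G + 1 + 1)) ^ (K + 1) *
        (Fintype.card G * (Nat.card G + 1 + 1)) ^ K) := Nat.mul_le_mul h1 (Nat.mul_le_mul h2 h3)
    _ = (Nat.card G * (Nat.card G + 2)) ^ (3 * K + 2) := by
        rw [← pow_add, ← pow_add, Nat.card_eq_fintype_card]
        have : K + 1 + (K + 1 + K) = 3 * K + 2 := by ring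
        rw [this]

end Pool.Agent.Lib.H83G
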