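import Mathlib

/-! # H83G, chunk E4: shifts of a finite set -/

set_option autoImplicit false

namespace Pool.Agent.Lib.H83G

variable {G : Type*} [AddCommGroup G] [DecidableEq G]

/-- The number of the elements of `B` which leave `B` under the shift by `x`. -/
def lam (B : Finset G) (x : G) : ℕ := (B.filter fun b => b + x ∉ B).card

private theorem lam_add_mu (B : Finset G) (x : G) :
    (B.filter fun b => b + x ∈ B).card + lam B x = B.card :=
  Finset.card_filter_add_card_filter_not (s := B) (fun b => b + x ∈ B)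

theorem lam_zero (B : Finset G) : lam B 0 = 0 := by
  unfold lam
  rw [Finset.card_eq_zero, Finset.filter_eq_empty_iff]
  intro b hb h
  rw [add_zero] at h
  exact h hb

/-- PROOF: if `b + (x + y) ∉ B` then `b + x ∉ B`, or `b + x ∈ B` is counted in `lam B y` (the map `b ↦ b + x` is injective). -/
theorem lam_add_le (B : Finset G) (x y : G) : lam B (x + y) ≤ lam B x + lam B y := by
  unfold lam
  have h1 : (B.filter fun b => b + (x + y) ∉ B) ⊆
      (B.filter fun b => b + x ∉ B) ∪ (B.filter fun b => b + x ∈ B ∧ b + x + y ∉ B) := by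
    intro b hb
    rw [Finset.mem_filter] at hb
    rw [Finset.mem_union, Finset.mem_filter, Finset.mem_filter]
    by_cases h : b + x ∈ B
    · exact Or.inr ⟨hb.1, h, by rw [add_assoc]; exact hb.2⟩
    · exact Or.inl ⟨hb.1, h⟩
  have h2 : (B.filter fun b => b + x ∈ B ∧ b + x + y ∉ B).card ≤
      (B.filter fun b => b + y ∉ B).card := by
    refine Finset.card_le_card_of_injOn (fun b => b + x) ?_ ?_
    · intro b hb
      have hb' := Finset.mem_filter.1 (Finset.mem_coe.1 hb)
      exact Finset.mem_coe.2 (Finset.mem_filter.2 ⟨hb'.2.1, hb'.2.2⟩)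
    · intro a _ b _ hab
      exact add_right_cancel hab
  calc _ ≤ _ := Finset.card_le_card h1
    _ ≤ _ := Finset.card_union_le _ _
    _ ≤ _ := Nat.add_le_add_left h2 _

private theorem mu_neg_le (B : Finset G) (x : G) :
    (B.filter fun b => b + x ∈ B).card ≤ (B.filter fun b => b + -x ∈ B).card := by
  refine Finset.card_le_card_of_injOn (fun b => b + x) ?_ ?_
  · intro b hb
    have hb' := Finset.mem_filter.1 (Finset.mem_coe.1 hb)
    refine Finset.mem_coe.2 (Finset.mem_filter.2 ⟨hb'.2, ?_⟩)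
    rw [add_neg_cancel_right]
    exact hb'.1
  · intro a _ b _ hab
    exact add_right_cancel hab

/-- PROOF: `lam B x = |B| - |{b ∈ B, b + x ∈ B}|`, and `b ↦ b + x` is a bijection of `{b ∈ B, b + x ∈ B}` onto
`{b ∈ B, b + (-x) ∈ B}`. -/
theorem lam_neg (B : Finset G) (x : G) : lam B (-x) = lam B x := by
  have h1 := lam_add_mu B x
  have h2 := lam_add_mu B (-x)
  have h3 := mu_neg_le B x
  have h4 := mu_neg_le B (-x)
  rw [neg_neg] at h4
  omega

theorem card_union_shift (B : Finset G) (x : G) : (B ∪ B.image fun b => b + x).card = B.card + lam B x := by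
  have h1 : (B.image fun b => b + x) \ B = (B.filter fun b => b + x ∉ B).image fun b => b + x := by
    ext c
    simp only [Finset.mem_sdiff, Finset.mem_image, Finset.mem_filter]
    constructor
    · rintro ⟨⟨b, hb, rfl⟩, h⟩
      exact ⟨b, ⟨hb, h⟩, rfl⟩
    · rintro ⟨b, ⟨hb, h⟩, rfl⟩
      exact ⟨⟨b, hb, rfl⟩, h⟩
  rw [← Finset.union_sdiff_self_eq_union, Finset.card_union_of_disjoint Finset.disjoint_sdiff, h1,
    Finset.card_image_of_injective _ (add_left_injective x)]
  rfl

/-- PROOF: otherwise `2 (|B| - lam B y) > |B|` for all `y ∈ Y`, so `2 ∑_(y ∈ Y) |{b ∈ B, b + y ∈ B}| > |Y| |B| ≥ 2 |B|²` (or `Y` is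
empty, impossible), but `∑_(y ∈ Y) |{b ∈ B, b + y ∈ B}| ≤ |B|²` (the pairs `(b, b + y)` are different). -/
theorem exists_lam (B Y : Finset G) (hB : B.Nonempty) (h : 2 * B.card ≤ Y.card) :
    ∃ y ∈ Y, B.card ≤ 2 * lam B y := by
  by_contra hcon
  push Not at hcon
  have hB1 : 0 < B.card := Finset.card_pos.2 hB
  have hY : Y.Nonempty := by
    rw [← Finset.card_pos]
    omega
  have h1 : ∀ y ∈ Y, B.card < 2 * (B.filter fun b => b + y ∈ B).card := by
    intro y hy
    have h2 := hcon y hy
    have h3 := lam_add_mu B y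
    omega
  have h2 : ∑ y ∈ Y, B.card < ∑ y ∈ Y, 2 * (B.filter fun b => b + y ∈ B).card :=
    Finset.sum_lt_sum_of_nonempty hY h1
  rw [Finset.sum_const, smul_eq_mul, ← Finset.mul_sum] at h2
  have h3 : ∑ y ∈ Y, (B.filter fun b => b + y ∈ B).card ≤ B.card * B.card := by
    rw [← Finset.card_sigma, ← Finset.card_product]
    refine Finset.card_le_card_of_injOn (fun p => (p.2, p.2 + p.1)) ?_ ?_
    · rintro ⟨y, b⟩ hp
      have hp' := Finset.mem_sigma.1 (Finset.mem_coe.1 hp)
      have hb := Finset.mem_filter.1 hp'.2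
      exact Finset.mem_coe.2 (Finset.mem_product.2 ⟨hb.1, hb.2⟩)
    · rintro ⟨y, b⟩ _ ⟨y', b'⟩ _ hpp
      simp only [Prod.mk.injEq] at hpp
      obtain ⟨rfl, h5⟩ := hpp
      have h6 : y = y' := add_left_cancel h5
      rw [h6]
  nlinarith

end Pool.Agent.Lib.H83G
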