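import Mathlib

/-! # H83G, chunk E5: growth of the sums of a symmetric set -/

set_option autoImplicit false

namespace Pool.Agent.Lib.H83G

variable {G : Type*} [AddCommGroup G] [DecidableEq G]

/-- The sums of `j` elements of `T`. -/
def sm (T : Finset G) : ℕ → Finset G
  | 0 => {0}
  | j + 1 => Finset.image₂ (fun a b => a + b) (sm T j) T

private theorem sm_add {T : Finset G} {j : ℕ} {a t : G} (ha : a ∈ sm T j) (ht : t ∈ T) : a + t ∈ sm T (j + 1) := by
  rw [sm, Finset.mem_image₂]
  exact ⟨a, ha, t, ht, rfl⟩

private theorem sm_sub {T : Finset G} (h0 : (0 : G) ∈ T) (j : ℕ) : sm T j ⊆ sm T (j + 1) := by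
  intro a ha
  have := sm_add ha h0
  rwa [add_zero] at this

private theorem sm_mono {T : Finset G} (h0 : (0 : G) ∈ T) {i j : ℕ} (h : i ≤ j) : sm T i ⊆ sm T j := by
  induction h with
  | refl => exact Finset.Subset.rfl
  | step _ ih => exact ih.trans (sm_sub h0 _)

private theorem zero_mem_sm {T : Finset G} (h0 : (0 : G) ∈ T) (j : ℕ) : (0 : G) ∈ sm T j := by
  refine sm_mono h0 (Nat.zero_le j) ?_
  rw [sm, Finset.mem_singleton]

private theorem closure_sub {T : Finset G} (h0 : (0 : G) ∈ T) {k : ℕ} (h : sm T (k + 1) = sm T k) {x : G}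
    (hx : x ∈ AddSubgroup.closure (T : Set G)) : x ∈ sm T k := by
  have key : ∀ y ∈ sm T k, y + x ∈ sm T k := by
    induction hx using AddSubgroup.closure_induction with
    | mem t ht =>
      intro y hy
      rw [← h]
      exact sm_add hy (Finset.mem_coe.1 ht)
    | zero =>
      intro y hy
      rwa [add_zero]
    | add a b _ _ iha ihb =>
      intro y hy
      rw [← add_assoc]
      exact ihb _ (iha _ hy)
    | neg a _ iha =>
      intro y hy
      have h1 : (sm T k).image (fun z => z + a) = sm T k := by
        refine Finset.eq_of_subset_of_card_le ?_ ?_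
        · intro z hz
          obtain ⟨w, hw, rfl⟩ := Finset.mem_image.1 hz
          exact iha w hw
        · rw [Finset.card_image_of_injective _ (add_left_injective a)]
      rw [← h1] at hy
      obtain ⟨w, hw, hwy⟩ := Finset.mem_image.1 hy
      rw [← hwy, add_neg_cancel_right]
      exact hw
  have := key 0 (zero_mem_sm h0 k)
  rwa [zero_add] at this

private theorem card_closure_le {T : Finset G} (h0 : (0 : G) ∈ T) {k : ℕ} (h : sm T (k + 1) = sm T k) :
    Nat.card (AddSubgroup.closure (T : Set G)) ≤ (sm T k).card := by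
  have h1 : ((AddSubgroup.closure (T : Set G) : AddSubgroup G) : Set G) ⊆ (sm T k : Set G) := fun x hx =>
    Finset.mem_coe.2 (closure_sub h0 h hx)
  have h2 := Set.ncard_le_ncard h1 (Finset.finite_toSet _)
  rw [Set.ncard_coe_finset] at h2
  exact h2

/-- PROOF: let `H` be the subgroup generated by `T`. Induction on `j`; `j = 0`: `sm T 1 = T`. Step: if `sm T (3 j + 3) = sm T (3 j + 2)`
then `sm T (3 j + 2)` contains `0` and is closed under addition of elements of `T`, `-T = T`, so it is `H`, and
`H = sm T (3 j + 2) ⊆ sm T (3 j + 4)` (`0 ∈ T`). Otherwise there is `y ∈ sm T (3 j + 3)`, `y ∉ sm T (3 j + 2)`; `y + T ⊆ sm T (3 j + 4)`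
is disjoint from `sm T (3 j + 1)`: if `y + t = w ∈ sm T (3 j + 1)` then `y = w + (-t) ∈ sm T (3 j + 2)`. So
`|sm T (3 j + 4)| ≥ |sm T (3 j + 1)| + |T|`. -/
theorem card_sm [Finite G] (T : Finset G) (h0 : (0 : G) ∈ T) (hn : ∀ t ∈ T, -t ∈ T) (j : ℕ) :
    (j + 1) * T.card ≤ (sm T (3 * j + 1)).card ∨
      Nat.card (AddSubgroup.closure (T : Set G)) ≤ (sm T (3 * j + 1)).card := by
  induction j with
  | zero =>
    left
    have h1 : sm T (3 * 0 + 1) = T := by
      rw [Nat.mul_zero, Nat.zero_add, sm, sm, Finset.image₂_singleton_left]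
      simp
    rw [h1]
    simp
  | succ j ih =>
    have h4 : 3 * (j + 1) + 1 = 3 * j + 4 := by ring
    rw [h4]
    rcases ih with ih | ih
    · by_cases he : sm T (3 * j + 3) = sm T (3 * j + 2)
      · right
        exact (card_closure_le h0 he).trans (Finset.card_le_card (sm_mono h0 (by omega)))
      · left
        obtain ⟨y, hy, hy'⟩ : ∃ y ∈ sm T (3 * j + 3), y ∉ sm T (3 * j + 2) := by
          by_contra hcon
          push Not at hcon
          exact he (Finset.Subset.antisymm hcon (sm_sub h0 _))
        have hd : Disjoint (sm T (3 * j + 1)) (T.image fun t => y + t) := by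
          rw [Finset.disjoint_left]
          intro w hw hw'
          obtain ⟨t, ht, rfl⟩ := Finset.mem_image.1 hw'
          have h5 := sm_add hw (hn t ht)
          rw [add_neg_cancel_right] at h5
          exact hy' h5
        have hs : sm T (3 * j + 1) ∪ (T.image fun t => y + t) ⊆ sm T (3 * j + 4) := by
          refine Finset.union_subset (sm_mono h0 (by omega)) ?_
          intro w hw
          obtain ⟨t, ht, rfl⟩ := Finset.mem_image.1 hw
          exact sm_add hy ht
        have h6 := Finset.card_le_card hs
        rw [Finset.card_union_of_disjoint hd, Finset.card_image_of_injective _ (add_right_injective y)] at h6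
        have h7 : (j + 1 + 1) * T.card = (j + 1) * T.card + T.card := by ring
        omega
    · right
      exact ih.trans (Finset.card_le_card (sm_mono h0 (by omega)))

end Pool.Agent.Lib.H83G
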