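import Pool.Agent.Lib.H83G.E4
import Pool.Agent.Lib.H83G.E5

/-! # H83G, chunk E6: some shift leaves many elements -/

set_option autoImplicit false

namespace Pool.Agent.Lib.H83G

variable {G : Type*} [AddCommGroup G] [DecidableEq G]

/-- PROOF: induction on `j` with `lam_add_le`. -/
theorem lam_sm (B T : Finset G) (M : ℕ) (h : ∀ t ∈ T, lam B t ≤ M) (j : ℕ) : ∀ y ∈ sm T j, lam B y ≤ j * M := by
  induction j with
  | zero =>
    intro y hy
    have hy0 : y = 0 := Finset.mem_singleton.1 hy
    rw [hy0, lam_zero]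
    exact Nat.zero_le _
  | succ j ih =>
    intro y hy
    obtain ⟨a, ha, b, hb, hab⟩ := Finset.mem_image₂.1 hy
    have h1 := lam_add_le B a b
    have h2 := ih a ha
    have h3 := h b hb
    rw [← hab, Nat.succ_mul]
    omega

/-- PROOF: let `M` be the maximum of `lam B` on `R`, `T = R ∪ -R ∪ {0}`, so `lam B ≤ M` on `T` (`lam_neg`, `lam_zero`) and the closure of
`T` is that of `R`. `j = 2 |B| / |R|`; `(j + 1) |T| ≥ 2 |B|`, so `|sm T (3 j + 1)| ≥ 2 |B|` (`card_sm`, `h`). `exists_lam` gives `y` with
`|B| ≤ 2 lam B y ≤ 2 (3 j + 1) M`, and `3 j |R| ≤ 6 |B|`, so `|B| |R| ≤ 2 (6 |B| + |R|) M ≤ 14 max(|B|, |R|) M`. -/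
theorem exists_growth [Finite G] (R B : Finset G) (hB : B.Nonempty) (hR : R.Nonempty)
    (h : 2 * B.card ≤ Nat.card (AddSubgroup.closure (R : Set G))) : ∃ x ∈ R, min B.card R.card ≤ 14 * lam B x := by
  obtain ⟨x, hxR, hx⟩ := Finset.exists_max_image R (lam B) hR
  refine ⟨x, hxR, ?_⟩
  set M := lam B x with hM
  set T : Finset G := insert 0 (R ∪ R.image fun r => -r) with hT
  have hRT : R ⊆ T := by
    intro r hr
    rw [hT, Finset.mem_insert, Finset.mem_union]
    exact Or.inr (Or.inl hr)
  have h0 : (0 : G) ∈ T := Finset.mem_insert_self _ _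
  have hn : ∀ t ∈ T, -t ∈ T := by
    intro t ht
    rw [hT, Finset.mem_insert, Finset.mem_union, Finset.mem_image] at ht ⊢
    rcases ht with rfl | ht | ⟨r, hr, rfl⟩
    · left
      simp
    · right
      right
      exact ⟨t, ht, rfl⟩
    · right
      left
      rw [neg_neg]
      exact hr
  have hTM : ∀ t ∈ T, lam B t ≤ M := by
    intro t ht
    rw [hT, Finset.mem_insert, Finset.mem_union, Finset.mem_image] at ht
    rcases ht with rfl | ht | ⟨r, hr, rfl⟩
    · rw [lam_zero]
      exact Nat.zero_le _
    · exact hx t ht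
    · rw [lam_neg]
      exact hx r hr
  have hcl : Nat.card (AddSubgroup.closure (R : Set G)) ≤ Nat.card (AddSubgroup.closure (T : Set G)) := by
    have hle : AddSubgroup.closure (R : Set G) ≤ AddSubgroup.closure (T : Set G) :=
      AddSubgroup.closure_mono (by exact_mod_cast hRT)
    exact Nat.card_le_card_of_injective (AddSubgroup.inclusion hle)
      (AddSubgroup.inclusion_injective hle)
  have hRpos : 0 < R.card := Finset.card_pos.2 hR
  have hBpos : 0 < B.card := Finset.card_pos.2 hB
  have hTc : R.card ≤ T.card := Finset.card_le_card hRT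
  set j := 2 * B.card / R.card with hj
  have hj1 : j * R.card ≤ 2 * B.card := Nat.div_mul_le_self _ _
  have hj2 : 2 * B.card < (j + 1) * R.card := by
    have h1 := Nat.lt_div_mul_add (a := 2 * B.card) hRpos
    rw [← hj] at h1
    rw [Nat.add_mul, one_mul]
    exact h1
  have hcard : 2 * B.card ≤ (sm T (3 * j + 1)).card := by
    rcases card_sm T h0 hn j with h1 | h1
    · refine le_trans ?_ h1
      exact hj2.le.trans (Nat.mul_le_mul_left _ hTc)
    · exact (h.trans hcl).trans h1
  obtain ⟨y, hy, hyB⟩ := exists_lam B (sm T (3 * j + 1)) hB hcard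
  have hyM := lam_sm B T M hTM (3 * j + 1) y hy
  have key : B.card ≤ 2 * ((3 * j + 1) * M) := by omega
  have key2 : B.card * R.card ≤ (12 * B.card + 2 * R.card) * M := by
    calc B.card * R.card ≤ (2 * ((3 * j + 1) * M)) * R.card := Nat.mul_le_mul_right _ key
      _ = (6 * (j * R.card) + 2 * R.card) * M := by ring
      _ ≤ (6 * (2 * B.card) + 2 * R.card) * M := by
          refine Nat.mul_le_mul_right _ ?_
          omega
      _ = (12 * B.card + 2 * R.card) * M := by ring
  rcases le_total B.card R.card with hle | hle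
  · rw [min_eq_left hle]
    refine Nat.le_of_mul_le_mul_right (c := R.card) ?_ hRpos
    calc B.card * R.card ≤ (12 * B.card + 2 * R.card) * M := key2
      _ ≤ (14 * R.card) * M := by
          refine Nat.mul_le_mul_right _ ?_
          omega
      _ = 14 * M * R.card := by ring
  · rw [min_eq_right hle]
    refine Nat.le_of_mul_le_mul_right (c := B.card) ?_ hBpos
    calc R.card * B.card = B.card * R.card := by ring
      _ ≤ (12 * B.card + 2 * R.card) * M := key2
      _ ≤ (14 * B.card) * M := by
          refine Nat.mul_le_mul_right _ ?_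
          omega
      _ = 14 * M * B.card := by ring

end Pool.Agent.Lib.H83G
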