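import Pool.Agent.Lib.H83G.E6

/-! # H83G, chunk E7: many subset sums -/

set_option autoImplicit false

namespace Pool.Agent.Lib.H83G

variable {G : Type*} [AddCommGroup G] [DecidableEq G]

/-- The subset sums. -/
def sig (A : Finset G) : Finset G := A.powerset.image fun T => ∑ t ∈ T, t

theorem sig_empty : sig (∅ : Finset G) = {0} := by
  simp [sig]

theorem zero_mem_sig (A : Finset G) : (0 : G) ∈ sig A :=
  Finset.mem_image.2 ⟨∅, Finset.empty_mem_powerset A, Finset.sum_empty⟩

theorem sig_insert {A : Finset G} {x : G} (hx : x ∉ A) : sig (insert x A) = sig A ∪ (sig A).image fun b => b + x := by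
  ext y
  simp only [sig, Finset.mem_union, Finset.mem_image, Finset.mem_powerset]
  constructor
  · rintro ⟨T, hT, rfl⟩
    by_cases hxT : x ∈ T
    · refine Or.inr ⟨∑ t ∈ T.erase x, t, ⟨T.erase x, ?_, rfl⟩, ?_⟩
      · intro t ht
        exact (Finset.mem_insert.1 (hT (Finset.mem_of_mem_erase ht))).resolve_left (Finset.ne_of_mem_erase ht)
      · rw [Finset.sum_erase_add _ _ hxT]
    · refine Or.inl ⟨T, ?_, rfl⟩
      intro t ht
      exact (Finset.mem_insert.1 (hT ht)).resolve_left fun e => hxT (e ▸ ht)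
  · rintro (⟨T, hT, rfl⟩ | ⟨b, ⟨T, hT, rfl⟩, rfl⟩)
    · exact ⟨T, hT.trans (Finset.subset_insert _ _), rfl⟩
    · refine ⟨insert x T, Finset.insert_subset_insert _ hT, ?_⟩
      rw [Finset.sum_insert fun h => hx (hT h), add_comm]

/-- PROOF: induction on `i`. `i = 0`: `A = ∅`. Step from `A` to `insert x A`, `x ∈ R = S \ (W ∪ A)`; `|R| ≥ 3 |S| / 4` because
`8 |W| ≤ |S|`, `8 i ≤ |S|`. If `|H| < 2 |sig A|`: any `x ∈ R` (`sig A ⊆ sig (insert x A)`). Otherwise, since the closure of `R` is that
of `S` (`hgen`), `exists_growth` gives `x ∈ R` with `i + 1 ≤ min(|sig A|, |R|) ≤ 14 lam (sig A) x`, and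
`|sig (insert x A)| = |sig A| + lam (sig A) x` (`sig_insert`, `card_union_shift`). -/
theorem greedy [Finite G] (S W : Finset G) (hW : 8 * W.card ≤ S.card)
    (hgen : ∀ R ⊆ S, 3 * S.card ≤ 4 * R.card →
      AddSubgroup.closure (R : Set G) = AddSubgroup.closure (S : Set G)) (i : ℕ) (hi : 8 * i ≤ S.card) :
    ∃ A ⊆ S \ W, A.card = i ∧ (Nat.card (AddSubgroup.closure (S : Set G)) < 2 * (sig A).card ∨
      (i * (i + 1) ≤ 28 * (sig A).card ∧ i + 1 ≤ (sig A).card)) := by
  induction i with
  | zero =>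
    refine ⟨∅, Finset.empty_subset _, Finset.card_empty, Or.inr ?_⟩
    rw [sig_empty, Finset.card_singleton]
    omega
  | succ i ih =>
    obtain ⟨A, hA, hAc, h⟩ := ih (by omega)
    have hRS : S \ (W ∪ A) ⊆ S := Finset.sdiff_subset
    have hR1 : S.card ≤ (S \ (W ∪ A)).card + (W ∪ A).card := by
      rw [← Finset.card_union_of_disjoint Finset.sdiff_disjoint, Finset.sdiff_union_self_eq_union]
      exact Finset.card_le_card Finset.subset_union_left
    have hR2 := Finset.card_union_le W A
    have hR3 : 3 * S.card ≤ 4 * (S \ (W ∪ A)).card := by omega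
    have hRne : (S \ (W ∪ A)).Nonempty := Finset.card_pos.1 (by omega)
    have step : ∀ x ∈ S \ (W ∪ A), insert x A ⊆ S \ W ∧ x ∉ A := by
      intro x hx
      rw [Finset.mem_sdiff, Finset.mem_union, not_or] at hx
      exact ⟨Finset.insert_subset (Finset.mem_sdiff.2 ⟨hx.1, hx.2.1⟩) hA, hx.2.2⟩
    by_cases hlt : Nat.card (AddSubgroup.closure (S : Set G)) < 2 * (sig A).card
    · obtain ⟨x, hx⟩ := hRne
      obtain ⟨h1, h2⟩ := step x hx
      refine ⟨insert x A, h1, by rw [Finset.card_insert_of_notMem h2, hAc], Or.inl ?_⟩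
      have h3 : (sig A).card ≤ (sig (insert x A)).card := by
        rw [sig_insert h2]
        exact Finset.card_le_card Finset.subset_union_left
      omega
    · have h4 := h.resolve_left hlt
      obtain ⟨x, hx, hg⟩ := exists_growth (S \ (W ∪ A)) (sig A) ⟨0, zero_mem_sig A⟩ hRne (by
        rw [hgen _ hRS hR3]
        omega)
      obtain ⟨h1, h2⟩ := step x hx
      refine ⟨insert x A, h1, by rw [Finset.card_insert_of_notMem h2, hAc], Or.inr ?_⟩
      have h5 : (sig (insert x A)).card = (sig A).card + lam (sig A) x := by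
        rw [sig_insert h2, card_union_shift]
      have h6 : i + 1 ≤ min (sig A).card (S \ (W ∪ A)).card := le_min h4.2 (by omega)
      have h7 : i + 1 ≤ 14 * lam (sig A) x := h6.trans hg
      rw [h5]
      constructor
      · have e : (i + 1) * (i + 1 + 1) = i * (i + 1) + 2 * (i + 1) := by ring
        rw [e]
        have := h4.1
        omega
      · have := h4.2
        omega

end Pool.Agent.Lib.H83G
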