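import Pool.Agent.Lib.H83G.E7

/-! # H83G, chunk E8: zero-sum free sets are small -/

set_option autoImplicit false

namespace Pool.Agent.Lib.H83G

variable {G : Type*} [AddCommGroup G] [DecidableEq G]

/-- PROOF: otherwise `lam (sig A) y = 0` (`sig_insert`, `card_union_shift`), so `b ↦ b + y` maps `sig A` to itself, injectively, hence onto;
`0 = b + y` with `b = ∑ T`, `T ⊆ A`, so `∑ (insert y T) = 0`. -/
theorem card_sig_lt {S A : Finset G} (hS : ∀ T ⊆ S, T.Nonempty → ∑ t ∈ T, t ≠ 0) (hA : A ⊆ S) {y : G} (hy : y ∈ S)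
    (hyA : y ∉ A) : (sig A).card < (sig (insert y A)).card := by
  rw [sig_insert hyA, card_union_shift]
  by_contra hcon
  have h0 : lam (sig A) y = 0 := by omega
  unfold lam at h0
  rw [Finset.card_eq_zero, Finset.filter_eq_empty_iff] at h0
  have h1 : ((sig A).image fun b => b + y) ⊆ sig A := by
    intro z hz
    obtain ⟨b, hb, rfl⟩ := Finset.mem_image.1 hz
    exact not_not.1 (h0 hb)
  have h2 : ((sig A).image fun b => b + y).card = (sig A).card :=
    Finset.card_image_of_injective _ (add_left_injective y)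
  have h3 := Finset.eq_of_subset_of_card_le h1 h2.ge
  have h4 : (0 : G) ∈ (sig A).image fun b => b + y := by
    rw [h3]
    exact zero_mem_sig A
  obtain ⟨b, hb, hb0⟩ := Finset.mem_image.1 h4
  unfold sig at hb
  obtain ⟨T, hT, rfl⟩ := Finset.mem_image.1 hb
  rw [Finset.mem_powerset] at hT
  have hyT : y ∉ T := fun h => hyA (hT h)
  refine hS (insert y T) ?_ (Finset.insert_nonempty y T) ?_
  · exact Finset.insert_subset hy (hT.trans hA)
  · rw [Finset.sum_insert hyT, add_comm]
    exact hb0

/-- PROOF: the two sets `sig A` and `-(sig B)` lie in `H`, the closure of `S`, and have only `0` in common: `∑ T + ∑ T' = 0`, `T ⊆ A`, `T' ⊆ B`,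
gives `∑ (T ∪ T') = 0`, so `T = T' = ∅`. -/
theorem card_sig_add [Finite G] {S A B : Finset G} (hS : ∀ T ⊆ S, T.Nonempty → ∑ t ∈ T, t ≠ 0) (hA : A ⊆ S) (hB : B ⊆ S)
    (hAB : Disjoint A B) : (sig A).card + (sig B).card ≤ Nat.card (AddSubgroup.closure (S : Set G)) + 1 := by
  have hmem : ∀ C : Finset G, C ⊆ S → ∀ z ∈ sig C, z ∈ AddSubgroup.closure (S : Set G) := by
    intro C hC z hz
    unfold sig at hz
    obtain ⟨T, hT, rfl⟩ := Finset.mem_image.1 hz
    rw [Finset.mem_powerset] at hT
    exact AddSubgroup.sum_mem _ fun t ht => AddSubgroup.subset_closure (Finset.mem_coe.2 (hC (hT ht)))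
  have h1 : ((sig B).image fun b => -b).card = (sig B).card :=
    Finset.card_image_of_injective _ neg_injective
  have h2 : (sig A ∪ (sig B).image fun b => -b).card ≤ Nat.card (AddSubgroup.closure (S : Set G)) := by
    have h3 : ((sig A ∪ (sig B).image fun b => -b : Finset G) : Set G) ⊆
        (AddSubgroup.closure (S : Set G) : Set G) := by
      intro z hz
      rw [Finset.mem_coe, Finset.mem_union] at hz
      rcases hz with hz | hz
      · exact hmem A hA z hz
      · obtain ⟨b, hb, rfl⟩ := Finset.mem_image.1 hz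
        exact AddSubgroup.neg_mem _ (hmem B hB b hb)
    have h4 := Set.ncard_le_ncard h3 (Set.toFinite _)
    rw [Set.ncard_coe_finset] at h4
    exact h4
  have h5 : (sig A ∩ (sig B).image fun b => -b).card ≤ 1 := by
    rw [← Finset.card_singleton (0 : G)]
    apply Finset.card_le_card
    intro z hz
    rw [Finset.mem_inter] at hz
    obtain ⟨hz1, hz2⟩ := hz
    obtain ⟨b, hb, hbz⟩ := Finset.mem_image.1 hz2
    unfold sig at hz1 hb
    obtain ⟨T, hT, hTz⟩ := Finset.mem_image.1 hz1
    obtain ⟨T', hT', hTb⟩ := Finset.mem_image.1 hb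
    rw [Finset.mem_powerset] at hT hT'
    have hd : Disjoint T T' := Finset.disjoint_of_subset_left hT (Finset.disjoint_of_subset_right hT' hAB)
    have hs : ∑ t ∈ T ∪ T', t = 0 := by
      rw [Finset.sum_union hd, hTz, hTb, ← hbz, neg_add_cancel]
    have he : ¬ (T ∪ T').Nonempty := fun hne =>
      hS (T ∪ T') (Finset.union_subset (hT.trans hA) (hT'.trans hB)) hne hs
    rw [Finset.not_nonempty_iff_eq_empty, Finset.union_eq_empty] at he
    rw [Finset.mem_singleton, ← hTz, he.1, Finset.sum_empty]
  have h6 := Finset.card_union_add_card_inter (sig A) ((sig B).image fun b => -b)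
  omega

omit [DecidableEq G] in
private theorem two_mul_card [Finite G] {H K : AddSubgroup G} (hle : H ≤ K) (hne : H ≠ K) :
    2 * Nat.card H ≤ Nat.card K := by
  obtain ⟨c, hc⟩ := AddSubgroup.card_dvd_of_le hle
  have hK : 0 < Nat.card K := Nat.card_pos
  have h2 : 2 ≤ c := by
    by_contra hc2
    have : c = 0 ∨ c = 1 := by omega
    rcases this with rfl | rfl
    · omega
    · apply hne
      apply AddSubgroup.eq_of_le_of_card_ge hle
      omega
  rw [hc]
  calc 2 * Nat.card H = Nat.card H * 2 := mul_comm _ _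
    _ ≤ Nat.card H * c := Nat.mul_le_mul_left _ h2

private theorem arith (s i h : ℕ) (h0 : s < 8 * (i + 1)) (h1 : i * (i + 1) ≤ 14 * h) (h2 : 1 ≤ h) :
    s ^ 2 ≤ 2000 * h := by
  have h3 : s ^ 2 ≤ (8 * (i + 1)) ^ 2 := Nat.pow_le_pow_left h0.le 2
  have h4 : (8 * (i + 1)) ^ 2 ≤ 64 * (2 * (i * (i + 1)) + 1) := by nlinarith
  omega

private theorem main_aux [Finite G] (n : ℕ) : ∀ S : Finset G, (∀ T ⊆ S, T.Nonempty → ∑ t ∈ T, t ≠ 0) →
    Nat.card (AddSubgroup.closure (S : Set G)) = n → S.card ^ 2 ≤ 2000 * n := by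
  induction n using Nat.strong_induction_on with
  | _ n ih =>
    intro S hS hn
    have hn1 : 1 ≤ n := by
      rw [← hn]
      exact Nat.card_pos
    by_cases hgen : ∀ R ⊆ S, 3 * S.card ≤ 4 * R.card →
      AddSubgroup.closure (R : Set G) = AddSubgroup.closure (S : Set G)
    · have h8 : 8 * (S.card / 8) ≤ S.card := Nat.mul_div_le _ _
      have h9 : S.card < 8 * (S.card / 8 + 1) := by omega
      obtain ⟨A, hA, hAc, hA2⟩ := greedy S ∅ (by simp) hgen (S.card / 8) h8
      obtain ⟨B, hB, hBc, hB2⟩ := greedy S A (by rw [hAc]; exact h8) hgen (S.card / 8) h8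
      rw [hn] at hA2 hB2
      by_cases hA3 : n < 2 * (sig A).card
      · by_cases hB3 : n < 2 * (sig B).card
        · by_cases hs : S.card < 8
          · have : S.card ≤ 7 := by omega
            have h10 : S.card ^ 2 ≤ 7 ^ 2 := Nat.pow_le_pow_left this 2
            omega
          · exfalso
            have hAS : A ⊆ S := hA.trans Finset.sdiff_subset
            have hBS : B ⊆ S := hB.trans Finset.sdiff_subset
            have hdis : Disjoint A B := by
              rw [Finset.disjoint_left]
              intro a ha hb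
              exact (Finset.mem_sdiff.1 (hB hb)).2 ha
            obtain ⟨y, hy, hyAB⟩ : ∃ y ∈ S, y ∉ A ∪ B := by
              by_contra hcon
              push Not at hcon
              have h10 : S ⊆ A ∪ B := fun z hz => hcon z hz
              have h11 := Finset.card_le_card h10
              have h12 := Finset.card_union_le A B
              omega
            rw [Finset.mem_union, not_or] at hyAB
            have h13 := card_sig_lt hS hAS hy hyAB.1
            have h14 := card_sig_add hS (Finset.insert_subset hy hAS) hBS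
              (Finset.disjoint_insert_left.2 ⟨hyAB.2, hdis⟩)
            rw [hn] at h14
            omega
        · rcases hB2 with h | ⟨h, -⟩
          · exact absurd h hB3
          · exact arith _ _ _ h9 (by omega) hn1
      · rcases hA2 with h | ⟨h, -⟩
        · exact absurd h hA3
        · exact arith _ _ _ h9 (by omega) hn1
    · push Not at hgen
      obtain ⟨R, hR, hRc, hne⟩ := hgen
      have hle : AddSubgroup.closure (R : Set G) ≤ AddSubgroup.closure (S : Set G) :=
        AddSubgroup.closure_mono (Finset.coe_subset.2 hR)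
      have h2 := two_mul_card hle hne
      rw [hn] at h2
      have hpos : 0 < Nat.card (AddSubgroup.closure (R : Set G)) := Nat.card_pos
      have h3 := ih (Nat.card (AddSubgroup.closure (R : Set G))) (by omega) R
        (fun T hT => hS T (hT.trans hR)) rfl
      have h4 : (3 * S.card) ^ 2 ≤ (4 * R.card) ^ 2 := Nat.pow_le_pow_left hRc 2
      rw [mul_pow, mul_pow] at h4
      omega

/-- PROOF: strong induction on `h = |H|`, `H` the closure of `S`. (1) If some `R ⊆ S` with `3 |S| ≤ 4 |R|` has closure different from `H`: its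
closure `H'` is a proper subgroup of `H`, so `2 |H'| ≤ |H|` (Lagrange), `|R|² ≤ 2000 |H'|`, and `9 |S|² ≤ 16 |R|² ≤ 16000 |H|`.
(2) Otherwise `greedy` with `i = |S| / 8`, `W = ∅` gives `A`, and with `W = A` gives `B`. If `|H| < 2 |sig A|` and `|H| < 2 |sig B|`: if
`|S| ≥ 8` take `y ∈ S`, `y ∉ A ∪ B`; `card_sig_lt` and `card_sig_add` (for `insert y A`, `B`) give
`|sig A| + 1 + |sig B| ≤ |H| + 1`, a contradiction (`2 |sig A| + 2 |sig B| ≥ 2 |H| + 2`); if `|S| < 8`, `|S|² ≤ 49`. Otherwise
`i (i + 1) ≤ 28 a`, `2 a ≤ |H|`, so `i (i + 1) ≤ 14 |H|` and `|S|² < 64 (i + 1)² ≤ 64 (2 i (i + 1) + 1) ≤ 64 (28 |H| + 1)`. -/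
theorem card_sq_le [Finite G] (S : Finset G) (hS : ∀ T ⊆ S, T.Nonempty → ∑ t ∈ T, t ≠ 0) :
    S.card ^ 2 ≤ 2000 * Nat.card (AddSubgroup.closure (S : Set G)) :=
  main_aux _ S hS rfl

end Pool.Agent.Lib.H83G
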