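import Pool.Agent.Lib.H83G.D
import Pool.Agent.Lib.H83G.E3
import Pool.Agent.Lib.H83G.E8

/-! # H83G, chunk E9: the bounds and the comparison -/

set_option autoImplicit false

namespace Pool.Agent.Lib.H83G

open Multiset Pool.Agent.Lib.H83B

section

variable {G : Type*} [AddCommGroup G]

theorem card_support_le [Finite G] [DecidableEq G] {F : Multiset G} (hF : Zsf F) :
    F.toFinset.card ≤ Nat.sqrt (2000 * Nat.card G) := by
  have h1 : ∀ T ⊆ F.toFinset, T.Nonempty → ∑ t ∈ T, t ≠ 0 := by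
    intro T hT hne h0
    have h2 : T.val ≤ F := by
      rw [Multiset.le_iff_subset T.nodup]
      intro x hx
      exact mem_toFinset.1 (hT hx)
    have h4 : T.val.sum = ∑ t ∈ T, t := by
      rw [Finset.sum, Multiset.map_id']
    have h3 := hF T.val h2 (by rw [h4]; exact h0)
    exact hne.ne_empty (Finset.val_eq_zero.1 h3)
  have h2 := card_sq_le F.toFinset h1
  have h3 : Nat.card (AddSubgroup.closure (F.toFinset : Set G)) ≤ Nat.card G :=
    AddSubgroup.card_le_card_addGroup _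
  rw [Nat.le_sqrt']
  exact h2.trans (Nat.mul_le_mul_left _ h3)

/-- `Lam m = 273 * √m * log_2 (m + 1)`. -/
noncomputable def Lam (m : ℕ) : ℝ := 273 * Real.sqrt m * Real.logb 2 (m + 1)

theorem two_le_Lam {m : ℕ} (hm : 1 ≤ m) : 2 ≤ Lam m := by
  have h1 : (1 : ℝ) ≤ m := by exact_mod_cast hm
  have h2 : (1 : ℝ) ≤ Real.logb 2 (m + 1) := by
    rw [Real.le_logb_iff_rpow_le (by norm_num) (by linarith), Real.rpow_one]
    linarith
  have h3 : (1 : ℝ) ≤ Real.sqrt m := Real.one_le_sqrt.2 h1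
  unfold Lam
  nlinarith

theorem two_rpow_Lam (m : ℕ) : (2 : ℝ) ^ Lam m = ((m : ℝ) + 1) ^ (273 * Real.sqrt m) := by
  unfold Lam
  rw [mul_comm, Real.rpow_mul (by norm_num), Real.rpow_logb (by norm_num) (by norm_num) (by positivity)]

theorem six_sqrt (m : ℕ) (hm : 1 ≤ m) :
    ((2 * (3 * Nat.sqrt (2000 * m) + 2) : ℕ) : ℝ) ≤ 273 * Real.sqrt m := by
  have h1 : (1 : ℝ) ≤ m := by exact_mod_cast hm
  have h3 : (1 : ℝ) ≤ Real.sqrt m := Real.one_le_sqrt.2 h1
  have h4 : Real.sqrt m ^ 2 = m := Real.sq_sqrt (by linarith)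
  have h5 : (Nat.sqrt (2000 * m) : ℝ) ≤ 44.8 * Real.sqrt m := by
    have h6 : Nat.sqrt (2000 * m) ^ 2 ≤ 2000 * m := Nat.sqrt_le' _
    have h7 : (Nat.sqrt (2000 * m) : ℝ) ^ 2 ≤ (44.8 * Real.sqrt m) ^ 2 := by
      calc (Nat.sqrt (2000 * m) : ℝ) ^ 2 ≤ 2000 * (m : ℝ) := by exact_mod_cast h6
        _ ≤ (44.8 * Real.sqrt m) ^ 2 := by
            rw [mul_pow, h4]
            nlinarith
    exact le_of_sq_le_sq h7 (by positivity)
  push_cast
  linarith

theorem betti_le_Lam [Finite G] : (betti G : ℝ) ≤ (2 : ℝ) ^ Lam (Nat.card G) := by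
  classical
  set m := Nat.card G with hm
  have hm1 : 1 ≤ m := Nat.card_pos
  rw [two_rpow_Lam]
  have h1 := betti_le_of_support (G := G) (Nat.sqrt (2000 * Nat.card G)) (fun F hF => card_support_le hF)
  rw [← hm] at h1
  have h2 : (m * (m + 2)) ^ (3 * Nat.sqrt (2000 * m) + 2) ≤ (m + 1) ^ (2 * (3 * Nat.sqrt (2000 * m) + 2)) := by
    rw [pow_mul]
    apply Nat.pow_le_pow_left
    nlinarith
  have h3 : (betti G : ℝ) ≤ ((m : ℝ) + 1) ^ (2 * (3 * Nat.sqrt (2000 * m) + 2)) := by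
    exact_mod_cast h1.trans h2
  refine h3.trans ?_
  rw [← Real.rpow_natCast]
  apply Real.rpow_le_rpow_of_exponent_le
  · have : (0 : ℝ) ≤ m := by positivity
    linarith
  · exact six_sqrt m hm1

end

variable {G H : Type*} [AddCommGroup G] [AddCommGroup H] [Finite G] [Finite H]

/-- An element of large order in `G`. -/
theorem lt_of_order (c : ℝ) (hc : 2 ≤ c) (hH : (betti H : ℝ) ≤ (2 : ℝ) ^ c) (g : G)
    (h : (c + 3) ^ 2 ≤ 2 * (addOrderOf g : ℝ)) : betti H < betti G := by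
  set k := ⌊c⌋₊ + 2 with hk
  have hf1 : 2 ≤ ⌊c⌋₊ := Nat.le_floor (by push_cast; exact hc)
  have hf2 : c < ⌊c⌋₊ + 1 := Nat.lt_floor_add_one _
  have hf3 : (⌊c⌋₊ : ℝ) ≤ c := Nat.floor_le (by linarith)
  have hkr : (k : ℝ) ≤ c + 2 := by
    rw [hk]
    push_cast
    linarith
  have h1 : k * (k + 1) ≤ 2 * addOrderOf g := by
    have : (k : ℝ) * (k + 1) ≤ 2 * (addOrderOf g : ℝ) := by
      have hk0 : (0 : ℝ) ≤ k := by positivity
      nlinarith
    exact_mod_cast this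
  have h2 := pow_le_betti g k (by omega) h1
  have h3 : (betti H : ℝ) < betti G := by
    calc (betti H : ℝ) ≤ (2 : ℝ) ^ c := hH
      _ < (2 : ℝ) ^ ((k - 1 : ℕ) : ℝ) := by
          apply Real.rpow_lt_rpow_of_exponent_lt (by norm_num)
          rw [hk, show ⌊c⌋₊ + 2 - 1 = ⌊c⌋₊ + 1 from rfl]
          push_cast
          linarith
      _ = ((2 ^ (k - 1) : ℕ) : ℝ) := by
          rw [Real.rpow_natCast]
          push_cast
          rfl
      _ ≤ betti G := by exact_mod_cast h2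
  exact_mod_cast h3

/-- Large order of `G`. -/
theorem lt_of_card (c : ℝ) (hc : 2 ≤ c) (hH : (betti H : ℝ) ≤ (2 : ℝ) ^ c)
    (h : (2 : ℝ) ^ (Real.sqrt (2 * c) + 12) ≤ (Nat.card G : ℝ)) :
    betti H < betti G := by
  set N := Nat.card G with hN
  have hN0 : N ≠ 0 := Nat.card_pos.ne'
  set j := Nat.log 2 N with hj
  have h1 : 2 ^ j ≤ N := Nat.pow_log_le_self 2 hN0
  have h2 : N < 2 ^ (j + 1) := Nat.lt_pow_succ_log_self (by norm_num) N
  have h3 : Real.sqrt (2 * c) + 12 < (j : ℝ) + 1 := by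
    have h4 : (2 : ℝ) ^ (Real.sqrt (2 * c) + 12) < (2 : ℝ) ^ ((j : ℝ) + 1) := by
      refine h.trans_lt ?_
      have : (N : ℝ) < (2 : ℝ) ^ (j + 1) := by exact_mod_cast h2
      rw [show (j : ℝ) + 1 = ((j + 1 : ℕ) : ℝ) by push_cast; rfl, Real.rpow_natCast]
      exact this
    exact (Real.rpow_lt_rpow_left_iff (by norm_num)).1 h4
  have hs0 : 0 ≤ Real.sqrt (2 * c) := Real.sqrt_nonneg _
  have hj12 : 12 ≤ j := by
    have : (11 : ℝ) < j := by linarith
    exact_mod_cast this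
  have hj2 : 2 * c < (j : ℝ) ^ 2 := by
    have h4 : Real.sqrt (2 * c) < j := by linarith
    have h5 : Real.sqrt (2 * c) ^ 2 = 2 * c := Real.sq_sqrt (by linarith)
    rw [← h5]
    exact pow_lt_pow_left₀ h4 hs0 (by norm_num)
  have h5 := card_pow_le_betti (G := G) j (by omega) h1
  have h6 : 2 ^ (j * j) ≤ betti G ^ 2 := by
    have h7 : (2 ^ j) ^ (2 * j) ≤ (2 ^ j) ^ j * betti G ^ 2 := by
      calc (2 ^ j) ^ (2 * j) ≤ N ^ (2 * j) := Nat.pow_le_pow_left h1 _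
        _ = (N ^ j) ^ 2 := by rw [← pow_mul, mul_comm 2 j]
        _ ≤ ((4 * (j + 1)) ^ j * betti G) ^ 2 := Nat.pow_le_pow_left h5 2
        _ = ((4 * (j + 1)) ^ 2) ^ j * betti G ^ 2 := by
            rw [mul_pow, ← pow_mul, ← pow_mul, mul_comm j 2]
        _ ≤ (2 ^ j) ^ j * betti G ^ 2 :=
            Nat.mul_le_mul_right _ (Nat.pow_le_pow_left (sixteen j hj12) j)
    have h8 : (2 ^ j) ^ (2 * j) = (2 ^ j) ^ j * 2 ^ (j * j) := by
      rw [two_mul, pow_add, ← pow_mul]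
    rw [h8] at h7
    exact Nat.le_of_mul_le_mul_left h7 (by positivity)
  have h9 : (betti H : ℝ) ^ 2 < (betti G : ℝ) ^ 2 := by
    calc (betti H : ℝ) ^ 2 ≤ ((2 : ℝ) ^ c) ^ 2 := pow_le_pow_left₀ (by positivity) hH 2
      _ = (2 : ℝ) ^ (2 * c) := by
          rw [← Real.rpow_natCast, ← Real.rpow_mul (by norm_num)]
          congr 1
          push_cast
          ring
      _ < (2 : ℝ) ^ ((j : ℝ) ^ 2) := Real.rpow_lt_rpow_of_exponent_lt (by norm_num) hj2
      _ = ((2 ^ (j * j) : ℕ) : ℝ) := by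
          rw [show (j : ℝ) ^ 2 = ((j * j : ℕ) : ℝ) by push_cast; ring, Real.rpow_natCast]
          push_cast
          rfl
      _ ≤ (betti G : ℝ) ^ 2 := by exact_mod_cast h6
  have h10 : (betti H : ℝ) < betti G := lt_of_pow_lt_pow_left₀ 2 (by positivity) h9
  exact_mod_cast h10

end Pool.Agent.Lib.H83G
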